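import Pool.Agent.R314.JM.Main

/-!
# Joint moments of almost all tuples of Maass forms (MP_a28cf0_nt)

Exponents `a_1, ..., a_I` one of which is equal to `1`; the conjecture predicts that the joint moments tend to zero.
For all tuples of members of an orthogonal family of Maass forms with spectral parameters at most `T`, apart from a
number of tuples smaller by a power of `T` than the number of all tuples, the joint moment is smaller than `ε`.

Proof: Bessel's inequality for the form with exponent `1`; the local Weyl bound `∑_j f_j(z)² ≤ C T²`, proved here from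
the elliptic regularity of the starting library (`Pool.Agent.Y265.HY.SB7`) and a covering of a neighbourhood of the
fundamental domain by twelve translates; and the sup-norm bound `f_j(z)² ≤ C T` (`Pool.Agent.Y265.HY.SB5`).
-/

set_option autoImplicit false
open MeasureTheory Complex
open scoped ContDiff

namespace Pool.Agent.Results.MP_a28cf0_nt.AlmostAllTuples

noncomputable section

/-- the fundamental domain `|x| ≤ 1/2`, `|z| ≥ 1` of the modular group in the upper half plane -/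
def D : Set ℂ := {z : ℂ | 0 < z.im ∧ |z.re| ≤ 1 / 2 ∧ 1 ≤ ‖z‖}

/-- the Laplacian `∂x² + ∂y²` -/
def lapl (f : ℂ → ℝ) (z : ℂ) : ℝ :=
  fderiv ℝ (fun w => fderiv ℝ f w 1) z 1 + fderiv ℝ (fun w => fderiv ℝ f w I) z I

/-- the integral over the modular surface with respect to `dx dy / y²` -/
def II (F : ℂ → ℝ) : ℝ := ∫ z in D, F z / z.im ^ 2

/-- `f` is a smooth real eigenfunction on the modular surface with eigenvalue `1/4 + t²` and mean square one
(the area of the modular surface is `π/3`); all real Hecke-Maass cusp forms, normalised as in the problem, are of this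
kind -/
structure MaassForm (t : ℝ) (f : ℂ → ℝ) : Prop where
  smooth : ContDiffOn ℝ ∞ f {z : ℂ | 0 < z.im}
  eigen : ∀ z : ℂ, 0 < z.im → -(z.im ^ 2 * lapl f z) = (1 / 4 + t ^ 2) * f z
  inv : ∀ z : ℂ, 0 < z.im → f (z + 1) = f z ∧ f (-z⁻¹) = f z
  int : IntegrableOn (fun z => f z ^ 2 / z.im ^ 2) D
  norm : II (fun z => f z ^ 2) = Real.pi / 3

/-- an orthogonal family of `m` forms with spectral parameters at most `T` -/
structure Family (T : ℝ) {m : ℕ} (f : Fin m → ℂ → ℝ) : Prop where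
  form : ∀ j, ∃ t : ℝ, |t| ≤ T ∧ MaassForm t (f j)
  orth : ∀ i j, i ≠ j → II (fun z => f i z * f j z) = 0

/-- weights: continuous, bounded by one on the fundamental domain, and zero there above the height `Y` -/
structure Weight (Y : ℝ) (ψ : ℂ → ℝ) : Prop where
  cont : ContinuousOn ψ {z : ℂ | 0 < z.im}
  bound : ∀ z ∈ D, |ψ z| ≤ 1
  cusp : ∀ z ∈ D, Y < z.im → ψ z = 0

/-- the exceptional tuples: those for which the joint moment is at least `ε` in absolute value -/
def exceptional {I : ℕ} (ψ : ℂ → ℝ) (a : Fin I → ℕ) (ε : ℝ) {m : ℕ} (f : Fin m → ℂ → ℝ) : Set (Fin I → Fin m) :=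
  {j | ε ≤ |II (fun z => ψ z * ∏ i, f (j i) z ^ a i)|}

/-- Let `a_1, ..., a_I` be positive integers one of which is `1`, and `e = ∑ (a_i - 1)`.
(1) If `A` bounds the squares of the forms of the family below the height `Y`, then the number of exceptional tuples is
at most `C ε⁻² A^e T^(2 (I - 1))`.
(2) It is at most `C ε⁻² T^(2 (I - 1) + e)`. -/
theorem result (I : ℕ) (a : Fin I → ℕ) (hpos : ∀ i, 0 < a i) (hone : ∃ i, a i = 1) (Y : ℝ) :
    (∃ C : ℝ, 0 < C ∧ ∀ T : ℝ, 1 ≤ T → ∀ (m : ℕ) (f : Fin m → ℂ → ℝ), Family T f →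
      ∀ A : ℝ, (∀ j, ∀ z ∈ D, z.im ≤ Y → f j z ^ 2 ≤ A) → 0 ≤ A →
      ∀ ψ : ℂ → ℝ, Weight Y ψ → ∀ ε : ℝ, 0 < ε →
        ((exceptional ψ a ε f).ncard : ℝ) ≤ C * A ^ (∑ i, (a i - 1)) * T ^ (2 * (I - 1)) / ε ^ 2) ∧
    (∃ C : ℝ, 0 < C ∧ ∀ T : ℝ, 1 ≤ T → ∀ (m : ℕ) (f : Fin m → ℂ → ℝ), Family T f →
      ∀ ψ : ℂ → ℝ, Weight Y ψ → ∀ ε : ℝ, 0 < ε →
        ((exceptional ψ a ε f).ncard : ℝ) ≤ C * T ^ (2 * (I - 1) + ∑ i, (a i - 1)) / ε ^ 2) := by
  classical
  obtain ⟨i₀, hi₀⟩ := hone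
  obtain ⟨C, hC, hm⟩ := Pool.Agent.R314.JM.second a i₀ hi₀ hpos Y
  obtain ⟨H, hH, hh⟩ := Pool.Agent.R314.JM.hor Y
  have part1 : ∀ T : ℝ, 1 ≤ T → ∀ (m : ℕ) (f : Fin m → ℂ → ℝ), Family T f →
      ∀ A : ℝ, (∀ j, ∀ z ∈ D, z.im ≤ Y → f j z ^ 2 ≤ A) → 0 ≤ A →
      ∀ ψ : ℂ → ℝ, Weight Y ψ → ∀ ε : ℝ, 0 < ε →
        ((exceptional ψ a ε f).ncard : ℝ) ≤ C * A ^ (∑ i, (a i - 1)) * T ^ (2 * (I - 1)) / ε ^ 2 := by
    intro T hT m f hf A hA hA0 ψ hψ ε hε
    choose t ht hft using hf.form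
    have hF : ∀ i, Pool.Agent.R314.JM.Form (t i) (f i) := fun i =>
      ⟨(hft i).smooth, fun z hz => (hft i).eigen z hz, (hft i).inv, (hft i).int⟩
    have hO : Pool.Agent.R314.JM.Orth f := by
      intro i j
      by_cases hij : i = j
      · subst hij
        rw [if_pos rfl, ← (hft i).norm]
        show _ = ∫ z in D, f i z ^ 2 / z.im ^ 2
        simp only [sq (f i _)]
        rfl
      · rw [if_neg hij]; exact hf.orth i j hij
    have key := hm ψ hψ.cont (fun z hz => hψ.bound z (Pool.Agent.R314.JM.KKD Y hz)) hψ.cusp T hT m t f hF hO ht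
      A hA0 (fun i z hz => hA i z (Pool.Agent.R314.JM.KKD Y hz) hz.2.2.2)
    rw [Fintype.card_fin, ← pow_mul] at key
    rw [le_div_iff₀ (by positivity)]
    refine le_trans ?_ key
    have e1 : (exceptional ψ a ε f) = ((Finset.univ.filter fun j => ε ≤ |Pool.Agent.R314.JM.JJ ψ a f j|) :
        Finset (Fin I → Fin m)) := by
      ext j
      simp only [exceptional, Set.mem_setOf_eq, Finset.coe_filter, Finset.mem_univ, true_and]
      exact Iff.rfl
    rw [e1, Set.ncard_coe_finset, ← nsmul_eq_mul, ← Finset.sum_const]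
    refine (Finset.sum_le_sum (g := fun j => Pool.Agent.R314.JM.JJ ψ a f j ^ 2) fun j hj => ?_).trans
      (Finset.sum_le_sum_of_subset_of_nonneg (Finset.filter_subset _ _) fun j _ _ => sq_nonneg _)
    rw [← sq_abs (Pool.Agent.R314.JM.JJ ψ a f j)]
    exact pow_le_pow_left₀ hε.le (Finset.mem_filter.1 hj).2 2
  refine ⟨⟨C, hC, part1⟩, ⟨C * H ^ (∑ i, (a i - 1)), by positivity, ?_⟩⟩
  intro T hT m f hf ψ hψ ε hε
  have T0 : 0 < T := by linarith
  have h1 := part1 T hT m f hf (H * T) (fun j z hz hY => by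
    obtain ⟨t, ht, hft⟩ := hf.form j
    exact hh T hT t (f j) ⟨hft.smooth, fun z hz => hft.eigen z hz, hft.inv, hft.int⟩ hft.norm ht z
      ⟨hz.2.1, hz.2.2, hz.1.le, hY⟩) (by positivity) ψ hψ ε hε
  refine h1.trans (le_of_eq ?_)
  rw [mul_pow, pow_add]
  ring

end

end Pool.Agent.Results.MP_a28cf0_nt.AlmostAllTuples
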