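import Pool.Agent.R314.JN.Hank

/-!
# Correlations of the energies of two forms (MP_a28cf0_nt)

The plane is `ℂ`, with the upper half plane `HH` and `dμ = dx dy / y²`. `dx f z`, `dy f z` are the
partial derivatives `fderiv ℝ f z 1`, `fderiv ℝ f z I`; `TF U φ` says that `φ : ℂ → ℝ` is smooth
with compact support contained in `U`.

Proof idea. The null forms of the pair `(f, g)` (compensated compactness for the energy-momentum
tensors and their Killing derivatives) say that the joint moments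
`∫ ψ W_{p+s}(f) W_{q+s}(f) W_{r-s}(g) W_{j-s}(g) dμ`, `p + q + r + j = 0`, do not depend on `s`
asymptotically, up to the Gaussian part. Hence the integral of the square
`|∑_k c_k W_{2k+a}(f) conj W_{2k+b}(g)|²` is asymptotically the quadratic form with the entries
`∫ ψ |W_{k+l+a}(f)|² |W_{k+l+b}(g)|² dμ - ∫ ψ dμ`, plus `∑ c_k² ∫ ψ dμ`.
-/

set_option autoImplicit false
open MeasureTheory Filter Topology Complex
open scoped ContDiff

namespace Pool.Agent.Results.MP_a28cf0_nt.EnergyCorrelations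

open Pool.Agent.W745.RW (TF dx dy)

/-- the open upper half plane -/
def HH : Set ℂ := {z | 0 < z.im}

/-- the eigenvalue `1/4 + t²` -/
noncomputable def ev (t : ℝ) : ℝ := 1 / 4 + t ^ 2

/-- `f` is a smooth real solution of `-y² (∂x² + ∂y²) f = (1/4 + t²) f` on the upper half plane -/
def Eig (t : ℝ) (f : ℂ → ℝ) : Prop :=
  ContDiffOn ℝ ∞ f HH ∧ ∀ z ∈ HH, -(z.im ^ 2 * (dx (dx f) z + dy (dy f) z)) = ev t * f z

/-- the operator `f ↦ lam^{-1/2} y (∂x f - i ∂y f)` -/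
noncomputable def RO (lam : ℝ) (f : ℂ → ℂ) (z : ℂ) : ℂ :=
  ((z.im / √lam : ℝ) : ℂ) * (dx f z - I * dy f z)

/-- quantum unique ergodicity in microlocal form: `∫ φ f (RO^k f) dμ → ∫ φ dμ` for `k = 0`, and
`→ 0` for `k ≥ 1` -/
def QUE (t : ℕ → ℝ) (f : ℕ → ℂ → ℝ) : Prop :=
  ∀ φ, TF HH φ → ∀ k : ℕ, Tendsto (fun n => ∫ z, ((φ z / z.im ^ 2 : ℝ) : ℂ) *
    ((f n z : ℂ) * (RO (ev (t n)))^[k] (fun w => (f n w : ℂ)) z)) atTop
    (𝓝 (if k = 0 then ((∫ z, φ z / z.im ^ 2 : ℝ) : ℂ) else 0))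

/-- the energy density of order `p`: `|RO^|p| f|²` (for `p = 0` it is `f²`, for `p = ± 1` it is
`|∇f|² / (1/4 + t²)` with the hyperbolic length of the gradient) -/
noncomputable def en (t : ℝ) (f : ℂ → ℝ) (p : ℤ) (z : ℂ) : ℝ :=
  ‖(RO (ev t))^[p.natAbs] (fun w => (f w : ℂ)) z‖ ^ 2

/-- the correlation `∫ ψ en_p(f) en_q(g) dμ` of the energy densities -/
noncomputable def EC (ψ : ℂ → ℝ) (t s : ℝ) (f g : ℂ → ℝ) (p q : ℤ) : ℝ :=
  ∫ z, ψ z * (en t f p z * en s g q z) / z.im ^ 2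

lemma ev_pos (t : ℝ) : 0 < ev t := by unfold ev; positivity

lemma HHo : IsOpen HH := isOpen_lt continuous_const continuous_im

lemma ev_top {t : ℕ → ℝ} (ht : Tendsto t atTop atTop) :
    Tendsto (fun n => ev (t n)) atTop atTop :=
  tendsto_atTop_add_const_left _ _ ((tendsto_pow_atTop two_ne_zero).comp ht)

lemma qs {t : ℕ → ℝ} (ht : Tendsto t atTop atTop) {f : ℕ → ℂ → ℝ}
    (hf : ∀ n, Eig (t n) (f n)) (hqe : QUE t f) :
    Pool.Agent.R314.JN.QS HH (fun n => ev (t n)) f := by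
  refine ⟨fun n => ev_pos (t n), ev_top ht, fun n => (hf n).1, fun n z hz => ?_, hqe⟩
  have h1 := (hf n).2 z hz
  show z.im ^ 2 * (dx (dx (f n)) z + dy (dy (f n)) z) + ev (t n) * f n z = 0
  linarith

lemma FW_norm (t : ℝ) (f : ℂ → ℝ) (p : ℤ) (z : ℂ) :
    ‖Pool.Agent.Y265.HY.FW (ev t) f p z‖ ^ 2 = en t f p z := by
  unfold en
  cases p with
  | ofNat k => rfl
  | negSucc k =>
    show ‖(-1) ^ (k + 1) * (starRingEnd ℂ) ((RO (ev t))^[k + 1] (fun w => (f w : ℂ)) z)‖ ^ 2 = _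
    rw [norm_mul, norm_pow, norm_neg, norm_one, one_pow, one_mul, RCLike.norm_conj]
    rfl

/-- **Result.** Let `f n`, `g n` be real eigenfunctions of the hyperbolic Laplacian on the upper
half plane with eigenvalues `ev (t n), ev (s n) → ∞`, both quantum uniquely ergodic, such that the
ratio of the eigenvalues stays in a compact subset of `(0, ∞)`. Let `ψ ≥ 0` be a test function and
let `EC p q = ∫ ψ en_p(f) en_q(g) dμ` be the correlations of the energy densities of order `p`, `q`.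
For all integers `a, b`, all `K`, real `c_0, ..., c_{K-1}` and `ε > 0`, for all large `n`,

(1) `∑_{k,l<K} c_k c_l EC(k+l+a, k+l+b) ≥ ((∑ c_k)² - ∑ c_k²) ∫ ψ dμ - ε`;

(2) in particular the Fejér average of the `EC(p+a, p+b)` is at least `(1 - 1/K) ∫ ψ dμ - ε`. For
independent random waves these correlations are `∫ ψ dμ`. -/
theorem result (t s : ℕ → ℝ) (ht : Tendsto t atTop atTop) (hs : Tendsto s atTop atTop)
    (f g : ℕ → ℂ → ℝ) (hf : ∀ n, Eig (t n) (f n)) (hg : ∀ n, Eig (s n) (g n))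
    (hqf : QUE t f) (hqg : QUE s g) (A : ℝ) (h1 : ∀ n, ev (t n) ≤ A * ev (s n))
    (h2 : ∀ n, ev (s n) ≤ A * ev (t n)) (ψ : ℂ → ℝ) (hψ : TF HH ψ) (h0 : ∀ z, 0 ≤ ψ z)
    (K : ℕ) (a b : ℤ) :
    (∀ c : ℕ → ℝ, ∀ ε > 0, ∀ᶠ n in atTop,
      ((∑ k ∈ Finset.range K, c k) ^ 2 - ∑ k ∈ Finset.range K, c k ^ 2) *
          (∫ z, ψ z / z.im ^ 2) - ε ≤
        ∑ k ∈ Finset.range K, ∑ l ∈ Finset.range K, c k * c l *
          EC ψ (t n) (s n) (f n) (g n) (k + l + a) (k + l + b)) ∧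
    (0 < K → ∀ ε > 0, ∀ᶠ n in atTop, (1 - 1 / K) * (∫ z, ψ z / z.im ^ 2) - ε ≤
      (∑ k ∈ Finset.range K, ∑ l ∈ Finset.range K,
          EC ψ (t n) (s n) (f n) (g n) (k + l + a) (k + l + b)) / (K : ℝ) ^ 2) := by
  have sy : ContDiffOn ℝ ∞ (fun z : ℂ => (z.im ^ 2)⁻¹) HH := by
    refine ContDiffOn.inv ((imCLM.contDiff.pow 2).contDiffOn) fun z hz => ?_
    exact pow_ne_zero 2 (ne_of_gt hz)
  have hρ : TF HH (fun z => ψ z / z.im ^ 2) := Pool.Agent.TH294.RS.TF.mulc HHo hψ sy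
  have hw : ∀ z : ℂ, 0 ≤ ψ z / z.im ^ 2 := fun z => div_nonneg (h0 z) (sq_nonneg _)
  have eE : ∀ n p q, Pool.Agent.R314.JN.E2 (fun z => ψ z / z.im ^ 2) (ev (t n)) (ev (s n)) (f n)
      (g n) p q = EC ψ (t n) (s n) (f n) (g n) p q := by
    intro n p q
    unfold Pool.Agent.R314.JN.E2 EC
    congr 1; funext z
    rw [FW_norm, FW_norm]; ring
  have key : ∀ c : ℕ → ℝ, ∀ ε > 0, ∀ᶠ n in atTop,
      ((∑ k ∈ Finset.range K, c k) ^ 2 - ∑ k ∈ Finset.range K, c k ^ 2) *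
          (∫ z, ψ z / z.im ^ 2) - ε ≤
        ∑ k ∈ Finset.range K, ∑ l ∈ Finset.range K, c k * c l *
          EC ψ (t n) (s n) (f n) (g n) (k + l + a) (k + l + b) := by
    intro c ε hε
    have h3 := Pool.Agent.R314.JN.hank (qs ht hf hqf) (qs hs hg hqg) HHo (fun z hz => hz) hρ hw
      h1 h2 K a b c hε
    simp only [eE] at h3
    exact h3
  refine ⟨key, fun hK ε hε => ?_⟩
  have hK' : (0 : ℝ) < K := by exact_mod_cast hK
  filter_upwards [key (fun _ => 1) (ε * (K : ℝ) ^ 2) (by positivity)] with n hn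
  simp only [Finset.sum_const, Finset.card_range, nsmul_eq_mul, mul_one, one_pow, one_mul] at hn
  rw [le_div_iff₀ (by positivity)]
  have e : ((1 - 1 / (K : ℝ)) * (∫ z, ψ z / z.im ^ 2) - ε) * (K : ℝ) ^ 2 =
      ((K : ℝ) ^ 2 - K) * (∫ z, ψ z / z.im ^ 2) - ε * (K : ℝ) ^ 2 := by
    field_simp
  rw [e]
  exact hn

end Pool.Agent.Results.MP_a28cf0_nt.EnergyCorrelations
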