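import Pool.Agent.R314.JN.Null

/-!
# Null joint moments of degree four of two eigenfunctions (MP_a28cf0_nt)

The plane is `ℂ`, with the upper half plane `HH` and `dμ = dx dy / y²`. `dx f z`, `dy f z` are the
partial derivatives `fderiv ℝ f z 1`, `fderiv ℝ f z I`; `TF U φ` says that `φ : ℂ → ℝ` is smooth
with compact support contained in `U`.

Proof idea. Products of two exact solutions of the eigenvalue equation (the eigenfunctions and their
derivatives along Killing fields) define divergence free symmetric tensors; for a form `f` this is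
its energy-momentum tensor. The compensated compactness identity for a pair of divergence free
tensors is applied to one tensor of `f` and one tensor of `g`. The weak limits of the tensors are
given by quantum unique ergodicity. No relation of the two frequencies enters.
-/

set_option autoImplicit false
open MeasureTheory Filter Topology Complex
open scoped ContDiff

namespace Pool.Agent.Results.MP_a28cf0_nt.JointNullForms

open Pool.Agent.W745.RW (TF dx dy)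

/-- the open upper half plane -/
def HH : Set ℂ := {z | 0 < z.im}

/-- the eigenvalue `1/4 + t²` -/
noncomputable def ev (t : ℝ) : ℝ := 1 / 4 + t ^ 2

/-- `f` is a smooth real solution of `-y² (∂x² + ∂y²) f = (1/4 + t²) f` on the upper half plane -/
def Eig (t : ℝ) (f : ℂ → ℝ) : Prop :=
  ContDiffOn ℝ ∞ f HH ∧ ∀ z ∈ HH, -(z.im ^ 2 * (dx (dx f) z + dy (dy f) z)) = ev t * f z

/-- the operator `f ↦ lam^{-1/2} y (∂x f - i ∂y f)` -/
noncomputable def RO (lam : ℝ) (f : ℂ → ℂ) (z : ℂ) : ℂ :=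
  ((z.im / √lam : ℝ) : ℂ) * (dx f z - I * dy f z)

/-- quantum unique ergodicity in microlocal form: `∫ φ f (RO^k f) dμ → ∫ φ dμ` for `k = 0`, and
`→ 0` for `k ≥ 1` -/
def QUE (t : ℕ → ℝ) (f : ℕ → ℂ → ℝ) : Prop :=
  ∀ φ, TF HH φ → ∀ k : ℕ, Tendsto (fun n => ∫ z, ((φ z / z.im ^ 2 : ℝ) : ℂ) *
    ((f n z : ℂ) * (RO (ev (t n)))^[k] (fun w => (f n w : ℂ)) z)) atTop
    (𝓝 (if k = 0 then ((∫ z, φ z / z.im ^ 2 : ℝ) : ℂ) else 0))

/-- the integral `∫ ψ F dμ` -/
noncomputable def II (ψ F : ℂ → ℝ) : ℝ := ∫ z, ψ z * F z / z.im ^ 2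

/-- the hyperbolic inner product `⟨∇f, ∇g⟩ = y² (f_x g_x + f_y g_y)` of the gradients -/
noncomputable def gr (f g : ℂ → ℝ) (z : ℂ) : ℝ := z.im ^ 2 * (dx f z * dx g z + dy f z * dy g z)

/-- the components of the local field of `f`: `W k = RO^k f` for `k ≥ 0` and
`W k = (-1)^k conj (RO^|k| f)` for `k < 0` -/
noncomputable def W (t : ℝ) (f : ℂ → ℝ) : ℤ → ℂ → ℂ
  | Int.ofNat k => (RO (ev t))^[k] (fun w => (f w : ℂ))
  | Int.negSucc k => fun z => (-1) ^ (k + 1) *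
      (starRingEnd ℂ) ((RO (ev t))^[k + 1] (fun w => (f w : ℂ)) z)

/-- the joint moment `∫ ψ W_a(f) W_b(f) W_c(g) W_d(g) dμ` -/
noncomputable def J (ψ : ℂ → ℝ) (t s : ℝ) (f g : ℂ → ℝ) (a b c d : ℤ) : ℂ :=
  ∫ z, ((ψ z / z.im ^ 2 : ℝ) : ℂ) * (W t f a z * W t f b z * (W s g c z * W s g d z))

/-- the covariance `E[W_a W_b]` of the isotropic random wave -/
noncomputable def C (a b : ℤ) : ℂ := if a + b = 0 then (-1) ^ a.natAbs else 0

/-- the joint moment of two independent isotropic random waves -/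
noncomputable def G (a b c d : ℤ) : ℂ := C a b * C c d

lemma ev_pos (t : ℝ) : 0 < ev t := by unfold ev; positivity

lemma HHo : IsOpen HH := isOpen_lt continuous_const continuous_im

lemma ev_top {t : ℕ → ℝ} (ht : Tendsto t atTop atTop) :
    Tendsto (fun n => ev (t n)) atTop atTop :=
  tendsto_atTop_add_const_left _ _ ((tendsto_pow_atTop two_ne_zero).comp ht)

open Pool.Agent.Y265.HY Pool.Agent.TH294.RS in
/-- the ladder system of a sequence -/
lemma sys {t : ℕ → ℝ} (ht : Tendsto t atTop atTop) {f : ℕ → ℂ → ℝ}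
    (hf : ∀ n, Eig (t n) (f n)) (hqe : QUE t f) :
    SY HH Complex.im (fun n => 1 / √(ev (t n))) (ww Complex.im (fun n => 1 / √(ev (t n)))
      (fun n z => (f n z : ℂ))) ∧
    EX HH (fun n => 1 / √(ev (t n))) (ww Complex.im (fun n => 1 / √(ev (t n)))
      (fun n z => (f n z : ℂ))) (fun n z => (f n z : ℂ)) := by
  refine hyp_sys HHo (fun z hz => hz) (fun n => ev_pos (t n)) (ev_top ht) (fun n => (hf n).1)
    (fun n z hz => ?_) hqe
  have h1 := (hf n).2 z hz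
  show z.im ^ 2 * (dx (dx (f n)) z + dy (dy (f n)) z) + ev (t n) * f n z = 0
  linarith

open Pool.Agent.Y265.HY Pool.Agent.TH294.RS in
lemma W_eq (t : ℕ → ℝ) (f : ℕ → ℂ → ℝ) (k : ℤ) (n : ℕ) (z : ℂ) :
    ww Complex.im (fun n => 1 / √(ev (t n))) (fun n z => (f n z : ℂ)) k n z =
      W (t n) (f n) k z := by
  rw [FW_eq (fun n => ev (t n)) f k n z]
  cases k with
  | ofNat k => rfl
  | negSucc k => rfl

/-- the algebraic form of the null form -/
lemma alg (fx fy gx gy y h k F G' : ℝ) :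
    ((h : ℂ) * ((y : ℂ) * ((fx : ℂ) - I * fy))) ^ 2 *
      ((k : ℂ) * ((y : ℂ) * ((gx : ℂ) + I * gy))) ^ 2 +
    ((h : ℂ) * ((y : ℂ) * ((fx : ℂ) + I * fy))) ^ 2 *
      ((k : ℂ) * ((y : ℂ) * ((gx : ℂ) - I * gy))) ^ 2 - 2 * ((F : ℂ) ^ 2 * (G' : ℂ) ^ 2) + 2 =
    ((-2 * (F ^ 2 * G' ^ 2 + (y ^ 2 * (fx * fx + fy * fy) * (y ^ 2 * (gx * gx + gy * gy)) -
      2 * (y ^ 2 * (fx * gx + fy * gy)) ^ 2) * (h ^ 2 * k ^ 2) - 1) : ℝ) : ℂ) := by
  have hI : I ^ 2 = -1 := I_sq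
  have e1 : ((h : ℂ) * ((y : ℂ) * ((fx : ℂ) - I * fy))) * ((k : ℂ) * ((y : ℂ) * ((gx : ℂ) + I * gy)))
      = (h : ℂ) * k * (y : ℂ) ^ 2 * (((fx : ℂ) * gx + fy * gy) + I * (fx * gy - fy * gx)) := by
    linear_combination (-(h : ℂ) * k * (y : ℂ) ^ 2 * fy * gy) * hI
  have e2 : ((h : ℂ) * ((y : ℂ) * ((fx : ℂ) + I * fy))) * ((k : ℂ) * ((y : ℂ) * ((gx : ℂ) - I * gy)))
      = (h : ℂ) * k * (y : ℂ) ^ 2 * (((fx : ℂ) * gx + fy * gy) - I * (fx * gy - fy * gx)) := by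
    linear_combination (-(h : ℂ) * k * (y : ℂ) ^ 2 * fy * gy) * hI
  rw [← mul_pow, ← mul_pow, e1, e2]
  push_cast
  linear_combination (2 * ((h : ℂ) * k * (y : ℂ) ^ 2) ^ 2 * (fx * gy - fy * gx) ^ 2) * hI

open Pool.Agent.Y265.HY Pool.Agent.TH294.RS Pool.Agent.R314.JN in
/-- the null form -/
theorem null {t s : ℕ → ℝ} (ht : Tendsto t atTop atTop) (hs : Tendsto s atTop atTop)
    {f g : ℕ → ℂ → ℝ} (hf : ∀ n, Eig (t n) (f n)) (hg : ∀ n, Eig (s n) (g n))
    (hqf : QUE t f) (hqg : QUE s g) {ψ : ℂ → ℝ} (hψ : TF HH ψ) :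
    Tendsto (fun n => II ψ (fun z => f n z ^ 2 * g n z ^ 2 + (gr (f n) (f n) z * gr (g n) (g n) z -
      2 * gr (f n) (g n) z ^ 2) / (ev (t n) * ev (s n)))) atTop
      (𝓝 (∫ z, ψ z / z.im ^ 2)) := by
  obtain ⟨S, E⟩ := sys ht hf hqf
  obtain ⟨S', E'⟩ := sys hs hg hqg
  have key := n0 S S' (fun z hz => hz) E E'
  have sy : ContDiffOn ℝ ∞ (fun z : ℂ => (z.im ^ 2)⁻¹) HH := by
    refine ContDiffOn.inv ((imCLM.contDiff.pow 2).contDiffOn) fun z hz => ?_
    exact pow_ne_zero 2 (ne_of_gt hz)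
  have hψ' := TF.mulc HHo hψ sy
  have h1 := key.nul _ hψ'
  have hh : ∀ r : ℝ, (1 / √(ev r)) ^ 2 = 1 / ev r := fun r => by
    rw [div_pow, Real.sq_sqrt (ev_pos r).le, one_pow]
  have co : ∀ n, ContinuousOn (fun z => f n z ^ 2 * g n z ^ 2 + (gr (f n) (f n) z *
      gr (g n) (g n) z - 2 * gr (f n) (g n) z ^ 2) / (ev (t n) * ev (s n))) HH := by
    intro n
    have cf := (hf n).1
    have cg := (hg n).1
    have fx := (Pool.Agent.W249.RW.cdd HHo cf 1).continuousOn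
    have fy := (Pool.Agent.W249.RW.cdd HHo cf I).continuousOn
    have gx := (Pool.Agent.W249.RW.cdd HHo cg 1).continuousOn
    have gy := (Pool.Agent.W249.RW.cdd HHo cg I).continuousOn
    have ci : ContinuousOn (fun z : ℂ => z.im ^ 2) HH := (continuous_im.pow 2).continuousOn
    have c1 : ContinuousOn (fun z => gr (f n) (f n) z) HH := ci.mul ((fx.mul fx).add (fy.mul fy))
    have c2 : ContinuousOn (fun z => gr (g n) (g n) z) HH := ci.mul ((gx.mul gx).add (gy.mul gy))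
    have c3 : ContinuousOn (fun z => gr (f n) (g n) z) HH := ci.mul ((fx.mul gx).add (fy.mul gy))
    exact ((cf.continuousOn.pow 2).mul (cg.continuousOn.pow 2)).add
      (((c1.mul c2).sub (continuousOn_const.mul (c3.pow 2))).div_const _)
  have e : ∀ n, ∫ z, ((ψ z * (z.im ^ 2)⁻¹ : ℝ) : ℂ) *
      (P (fun n => 1 / √(ev (t n))) (ww Complex.im (fun n => 1 / √(ev (t n)))
        (fun n z => (f n z : ℂ)) 0) n z ^ 2 *
      M (fun n => 1 / √(ev (s n))) (ww Complex.im (fun n => 1 / √(ev (s n)))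
        (fun n z => (g n z : ℂ)) 0) n z ^ 2 +
      M (fun n => 1 / √(ev (t n))) (ww Complex.im (fun n => 1 / √(ev (t n)))
        (fun n z => (f n z : ℂ)) 0) n z ^ 2 *
      P (fun n => 1 / √(ev (s n))) (ww Complex.im (fun n => 1 / √(ev (s n)))
        (fun n z => (g n z : ℂ)) 0) n z ^ 2 -
      2 * (ww Complex.im (fun n => 1 / √(ev (t n))) (fun n z => (f n z : ℂ)) 0 n z ^ 2 *
        ww Complex.im (fun n => 1 / √(ev (s n))) (fun n z => (g n z : ℂ)) 0 n z ^ 2) + 2) =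
      ((-2 * (II ψ (fun z => f n z ^ 2 * g n z ^ 2 + (gr (f n) (f n) z *
      gr (g n) (g n) z - 2 * gr (f n) (g n) z ^ 2) / (ev (t n) * ev (s n))) -
        ∫ z, ψ z / z.im ^ 2) : ℝ) : ℂ) := by
    intro n
    have i1 : Integrable (fun z => (ψ z * (z.im ^ 2)⁻¹) * (f n z ^ 2 * g n z ^ 2 +
        (gr (f n) (f n) z * gr (g n) (g n) z - 2 * gr (f n) (g n) z ^ 2) /
          (ev (t n) * ev (s n)))) :=
      Pool.Agent.Y265.RW.int_mulr HHo hψ' (co n)
    have i2 : Integrable (fun z => ψ z * (z.im ^ 2)⁻¹) :=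
      hψ'.1.continuous.integrable_of_hasCompactSupport hψ'.2.1
    have e3 : (II ψ (fun z => f n z ^ 2 * g n z ^ 2 + (gr (f n) (f n) z *
      gr (g n) (g n) z - 2 * gr (f n) (g n) z ^ 2) / (ev (t n) * ev (s n))) -
        ∫ z, ψ z / z.im ^ 2) = ∫ z, (ψ z * (z.im ^ 2)⁻¹) * ((f n z ^ 2 * g n z ^ 2 +
        (gr (f n) (f n) z * gr (g n) (g n) z - 2 * gr (f n) (g n) z ^ 2) /
          (ev (t n) * ev (s n))) - 1) := by
      unfold II
      have e4 : ∀ z, ψ z * (f n z ^ 2 * g n z ^ 2 + (gr (f n) (f n) z *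
          gr (g n) (g n) z - 2 * gr (f n) (g n) z ^ 2) / (ev (t n) * ev (s n))) / z.im ^ 2 =
          (ψ z * (z.im ^ 2)⁻¹) * (f n z ^ 2 * g n z ^ 2 +
          (gr (f n) (f n) z * gr (g n) (g n) z - 2 * gr (f n) (g n) z ^ 2) /
          (ev (t n) * ev (s n))) := fun z => by rw [div_eq_mul_inv]; ring
      have e5 : ∀ z : ℂ, ψ z / z.im ^ 2 = ψ z * (z.im ^ 2)⁻¹ := fun z => div_eq_mul_inv _ _
      simp only [e4, e5]
      rw [← integral_sub i1 i2]
      congr 1; funext z; ring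
    rw [e3, ← integral_const_mul, ← integral_complex_ofReal]
    congr 1; funext z
    by_cases hz : z ∈ HH
    · have df := Pool.Agent.W249.RW.diffAt HHo (hf n).1 hz
      have dg := Pool.Agent.W249.RW.diffAt HHo (hg n).1 hz
      have fx : dx (fun w => (f n w : ℂ)) z = ((dx (f n) z : ℝ) : ℂ) :=
        Pool.Agent.TH294.RS.fd_re df 1
      have fy : dy (fun w => (f n w : ℂ)) z = ((dy (f n) z : ℝ) : ℂ) :=
        Pool.Agent.TH294.RS.fd_re df I
      have gx : dx (fun w => (g n w : ℂ)) z = ((dx (g n) z : ℝ) : ℂ) :=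
        Pool.Agent.TH294.RS.fd_re dg 1
      have gy : dy (fun w => (g n w : ℂ)) z = ((dy (g n) z : ℝ) : ℂ) :=
        Pool.Agent.TH294.RS.fd_re dg I
      have A := alg (dx (f n) z) (dy (f n) z) (dx (g n) z) (dy (g n) z) z.im
        (1 / √(ev (t n))) (1 / √(ev (s n))) (f n z) (g n z)
      show ((ψ z * (z.im ^ 2)⁻¹ : ℝ) : ℂ) *
        ((((1 / √(ev (t n)) : ℝ) : ℂ) * ((z.im : ℂ) * (dx (fun w => (f n w : ℂ)) z -
          I * dy (fun w => (f n w : ℂ)) z))) ^ 2 *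
        (((1 / √(ev (s n)) : ℝ) : ℂ) * ((z.im : ℂ) * (dx (fun w => (g n w : ℂ)) z +
          I * dy (fun w => (g n w : ℂ)) z))) ^ 2 +
        (((1 / √(ev (t n)) : ℝ) : ℂ) * ((z.im : ℂ) * (dx (fun w => (f n w : ℂ)) z +
          I * dy (fun w => (f n w : ℂ)) z))) ^ 2 *
        (((1 / √(ev (s n)) : ℝ) : ℂ) * ((z.im : ℂ) * (dx (fun w => (g n w : ℂ)) z -
          I * dy (fun w => (g n w : ℂ)) z))) ^ 2 -
        2 * ((f n z : ℂ) ^ 2 * (g n z : ℂ) ^ 2) + 2) = _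
      rw [fx, fy, gx, gy, A, ← ofReal_mul]
      congr 1
      rw [hh, hh]
      unfold gr
      have p1 := (ev_pos (t n)).ne'
      have p2 := (ev_pos (s n)).ne'
      field_simp
    · rw [TF.zero hψ hz]; simp
  have h2 : Tendsto (fun n => ((-2 * (II ψ (fun z => f n z ^ 2 * g n z ^ 2 + (gr (f n) (f n) z *
      gr (g n) (g n) z - 2 * gr (f n) (g n) z ^ 2) / (ev (t n) * ev (s n))) -
        ∫ z, ψ z / z.im ^ 2) : ℝ) : ℂ)) atTop (𝓝 ((0 : ℝ) : ℂ)) := by
    rw [ofReal_zero]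
    exact h1.congr fun n => e n
  have h3 := toR h2
  have h4 := (h3.const_mul (-1 / 2)).add_const (∫ z, ψ z / z.im ^ 2)
  rw [mul_zero, zero_add] at h4
  refine h4.congr fun n => ?_
  ring

/-- pointwise: the null form is at most the sum of the squares and the energies -/
lemma gr_cs (f g : ℂ → ℝ) (z : ℂ) : gr f g z ^ 2 ≤ gr f f z * gr g g z := by
  unfold gr
  have : (z.im ^ 2 * (dx f z * dx f z + dy f z * dy f z)) *
      (z.im ^ 2 * (dx g z * dx g z + dy g z * dy g z)) -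
      (z.im ^ 2 * (dx f z * dx g z + dy f z * dy g z)) ^ 2 =
      (z.im ^ 2 * (dx f z * dy g z - dy f z * dx g z)) ^ 2 := by ring
  nlinarith [sq_nonneg (z.im ^ 2 * (dx f z * dy g z - dy f z * dx g z))]

lemma gr_co {t s : ℝ} {f g : ℂ → ℝ} (hf : Eig t f) (hg : Eig s g) :
    ContinuousOn (fun z => gr f g z) HH := by
  have fx := (Pool.Agent.W249.RW.cdd HHo hf.1 1).continuousOn
  have fy := (Pool.Agent.W249.RW.cdd HHo hf.1 I).continuousOn
  have gx := (Pool.Agent.W249.RW.cdd HHo hg.1 1).continuousOn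
  have gy := (Pool.Agent.W249.RW.cdd HHo hg.1 I).continuousOn
  have ci : ContinuousOn (fun z : ℂ => z.im ^ 2) HH := (continuous_im.pow 2).continuousOn
  exact ci.mul ((fx.mul gx).add (fy.mul gy))

lemma II_int {ψ : ℂ → ℝ} (hψ : TF HH ψ) {F : ℂ → ℝ} (hF : ContinuousOn F HH) :
    Integrable (fun z => ψ z * F z / z.im ^ 2) := by
  have sy : ContDiffOn ℝ ∞ (fun z : ℂ => (z.im ^ 2)⁻¹) HH := by
    refine ContDiffOn.inv ((imCLM.contDiff.pow 2).contDiffOn) fun z hz => ?_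
    exact pow_ne_zero 2 (ne_of_gt hz)
  have h1 := Pool.Agent.Y265.RW.int_mulr HHo (Pool.Agent.TH294.RS.TF.mulc HHo hψ sy) hF
  refine h1.congr (Eventually.of_forall fun z => ?_)
  show ψ z * (z.im ^ 2)⁻¹ * F z = ψ z * F z / z.im ^ 2
  rw [div_eq_mul_inv]; ring

lemma II_mono {ψ : ℂ → ℝ} (hψ : TF HH ψ) (h0 : ∀ z, 0 ≤ ψ z) {F F' : ℂ → ℝ}
    (hF : ContinuousOn F HH) (hF' : ContinuousOn F' HH) (h : ∀ z, F z ≤ F' z) :
    II ψ F ≤ II ψ F' := by
  refine integral_mono (II_int hψ hF) (II_int hψ hF') fun z => ?_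
  exact div_le_div_of_nonneg_right (mul_le_mul_of_nonneg_left (h z) (h0 z)) (sq_nonneg _)

/-- integral of a sum of four-fold products -/
lemma cong_nul {B : Set ℂ} {ψ : ℂ → ℝ} (hψ : TF B ψ) {F : ℕ → ℂ → ℂ} {c : ℂ}
    (hF : Pool.Agent.TH294.RS.WN B (fun n z => F n z - c))
    (hc : ∀ n, ContinuousOn (F n) B) :
    Tendsto (fun n => ∫ z, (ψ z : ℂ) * F n z) atTop (𝓝 (c * ((∫ z, ψ z : ℝ) : ℂ))) := by
  have h1 := hF.nul ψ hψ
  have i2 : Integrable (fun z => (ψ z : ℂ) * c) :=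
    ((hψ.1.continuous.integrable_of_hasCompactSupport hψ.2.1).ofReal).mul_const c
  have h2 : Tendsto (fun n => (∫ z, (ψ z : ℂ) * (F n z - c)) + c * ((∫ z, ψ z : ℝ) : ℂ)) atTop
      (𝓝 (0 + c * ((∫ z, ψ z : ℝ) : ℂ))) := h1.add_const _
  rw [zero_add] at h2
  refine h2.congr fun n => ?_
  have e1 : c * ((∫ z, ψ z : ℝ) : ℂ) = ∫ z, (ψ z : ℂ) * c := by
    rw [integral_mul_const, integral_complex_ofReal, mul_comm]
  rw [e1, ← integral_add ?_ i2]
  · congr 1; funext z; ring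
  · exact Pool.Agent.TH294.RS.TF.cint hψ ((hc n).sub continuousOn_const)

lemma int3 {F1 F2 F3 : ℂ → ℂ} (i1 : Integrable F1) (i2 : Integrable F2) (i3 : Integrable F3)
    (r : ℂ) : ∫ z, (F1 z + F2 z - r * F3 z) = (∫ z, F1 z) + (∫ z, F2 z) - r * ∫ z, F3 z := by
  have h12 : Integrable (fun z => F1 z + F2 z) := i1.add i2
  have h3 : Integrable (fun z => r * F3 z) := i3.const_mul r
  rw [integral_sub h12 h3, integral_add i1 i2, integral_const_mul]

lemma int4 {F1 F2 F3 F4 : ℂ → ℂ} (i1 : Integrable F1) (i2 : Integrable F2) (i3 : Integrable F3)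
    (i4 : Integrable F4) (r : ℂ) : ∫ z, (F1 z + F2 z + r * (F3 z + F4 z)) =
      (∫ z, F1 z) + (∫ z, F2 z) + r * ((∫ z, F3 z) + ∫ z, F4 z) := by
  have h12 : Integrable (fun z => F1 z + F2 z) := i1.add i2
  have h34 : Integrable (fun z => F3 z + F4 z) := i3.add i4
  have h5 : Integrable (fun z => r * (F3 z + F4 z)) := h34.const_mul r
  rw [integral_add h12 h5, integral_add i1 i2, integral_const_mul, integral_add i3 i4]

open Pool.Agent.Y265.HY Pool.Agent.TH294.RS Pool.Agent.R314.JN in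
/-- the relations of the ladders -/
theorem ladders {t s : ℕ → ℝ} (ht : Tendsto t atTop atTop) (hs : Tendsto s atTop atTop)
    {f g : ℕ → ℂ → ℝ} (hf : ∀ n, Eig (t n) (f n)) (hg : ∀ n, Eig (s n) (g n))
    (hqf : QUE t f) (hqg : QUE s g) {ψ : ℂ → ℝ} (hψ : TF HH ψ) {A : ℝ}
    (h1 : ∀ n, ev (t n) ≤ A * ev (s n)) (h2 : ∀ n, ev (s n) ≤ A * ev (t n)) (a b c d : ℤ) :
    Tendsto (fun n => J ψ (t n) (s n) (f n) (g n) (a + 1) (b + 1) (c - 1) (d - 1) +
      J ψ (t n) (s n) (f n) (g n) (a - 1) (b - 1) (c + 1) (d + 1) -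
      2 * J ψ (t n) (s n) (f n) (g n) a b c d) atTop
      (𝓝 ((G (a + 1) (b + 1) (c - 1) (d - 1) + G (a - 1) (b - 1) (c + 1) (d + 1) -
        2 * G a b c d) * ((∫ z, ψ z / z.im ^ 2 : ℝ) : ℂ))) ∧
    Tendsto (fun n => J ψ (t n) (s n) (f n) (g n) (a + 1) b c d +
      J ψ (t n) (s n) (f n) (g n) a (b + 1) c d + (√(ev (s n)) / √(ev (t n)) : ℝ) *
      (J ψ (t n) (s n) (f n) (g n) a b (c + 1) d + J ψ (t n) (s n) (f n) (g n) a b c (d + 1)))
      atTop (𝓝 0) := by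
  obtain ⟨S, E⟩ := sys ht hf hqf
  obtain ⟨S', E'⟩ := sys hs hg hqg
  have sy : ContDiffOn ℝ ∞ (fun z : ℂ => (z.im ^ 2)⁻¹) HH := by
    refine ContDiffOn.inv ((imCLM.contDiff.pow 2).contDiffOn) fun z hz => ?_
    exact pow_ne_zero 2 (ne_of_gt hz)
  have hψ' := TF.mulc HHo hψ sy
  have hA : 0 < A := by
    have p1 := ev_pos (t 0); have p2 := ev_pos (s 0)
    by_contra hA
    have := h1 0
    nlinarith
  have cmp : ∀ x y : ℝ, 0 < x → 0 < y → y ≤ A * x → 1 / √x ≤ √A * (1 / √y) := by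
    intro x y hx hy hxy
    have : √y ≤ √A * √x := by
      rw [← Real.sqrt_mul hA.le]
      exact Real.sqrt_le_sqrt hxy
    have px := Real.sqrt_pos.2 hx
    have py := Real.sqrt_pos.2 hy
    rw [mul_one_div, div_le_div_iff₀ px py]
    linarith
  have hC : ∀ n, 1 / √(ev (t n)) ≤ √A * (1 / √(ev (s n))) := fun n =>
    cmp _ _ (ev_pos _) (ev_pos _) (h2 n)
  have hC' : ∀ n, 1 / √(ev (s n)) ≤ √A * (1 / √(ev (t n))) := fun n =>
    cmp _ _ (ev_pos _) (ev_pos _) (h1 n)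
  have key := nWJ S S' (fun z hz => hz) hC hC' E E' a b c d
  have key2 := tr5 S S' (fun z hz => hz) hC E E' a b c d
  have cw : ∀ k n, ContinuousOn (W (t n) (f n) k) HH := fun k n =>
    (((S.bd k).sm n).continuousOn).congr fun z _ => (W_eq t f k n z).symm
  have cv : ∀ k n, ContinuousOn (W (s n) (g n) k) HH := fun k n =>
    (((S'.bd k).sm n).continuousOn).congr fun z _ => (W_eq s g k n z).symm
  have cJ : ∀ n a b c d, ContinuousOn (fun z => W (t n) (f n) a z * W (t n) (f n) b z *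
      (W (s n) (g n) c z * W (s n) (g n) d z)) HH := fun n a b c d =>
    ((cw a n).mul (cw b n)).mul ((cv c n).mul (cv d n))
  have iJ : ∀ n a b c d, Integrable (fun z => ((ψ z / z.im ^ 2 : ℝ) : ℂ) *
      (W (t n) (f n) a z * W (t n) (f n) b z * (W (s n) (g n) c z * W (s n) (g n) d z))) := by
    intro n a b c d
    have := TF.cint hψ' (cJ n a b c d)
    simpa only [div_eq_mul_inv] using this
  simp only [W_eq] at key key2
  constructor
  · have k1 := key.nul _ hψ'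
    have e0 : ((∫ z, ψ z / z.im ^ 2 : ℝ) : ℂ) = ((∫ z, ψ z * (z.im ^ 2)⁻¹ : ℝ) : ℂ) := by
      simp only [div_eq_mul_inv]
    rw [e0]
    have k2 := cong_nul (c := G (a + 1) (b + 1) (c - 1) (d - 1) + G (a - 1) (b - 1) (c + 1) (d + 1) -
        2 * G a b c d) (F := fun n z => W (t n) (f n) (a + 1) z * W (t n) (f n) (b + 1) z *
      (W (s n) (g n) (c - 1) z * W (s n) (g n) (d - 1) z) +
      W (t n) (f n) (a - 1) z * W (t n) (f n) (b - 1) z *
      (W (s n) (g n) (c + 1) z * W (s n) (g n) (d + 1) z) -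
      2 * (W (t n) (f n) a z * W (t n) (f n) b z *
      (W (s n) (g n) c z * W (s n) (g n) d z))) hψ' (key.congr fun n z _ => by
        show _ - (G (a + 1) (b + 1) (c - 1) (d - 1) + G (a - 1) (b - 1) (c + 1) (d + 1) -
          2 * G a b c d) = _ - (G (a + 1) (b + 1) (c - 1) (d - 1) +
          G (a - 1) (b - 1) (c + 1) (d + 1) - 2 * C a b * C c d)
        unfold G
        ring) (fun n => ((cJ n _ _ _ _).add (cJ n _ _ _ _)).sub
          (continuousOn_const.mul (cJ n _ _ _ _)))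
    refine k2.congr fun n => ?_
    unfold J
    rw [← int3 (iJ n _ _ _ _) (iJ n _ _ _ _) (iJ n _ _ _ _)]
    congr 1; funext z
    simp only [div_eq_mul_inv]
    ring
  · have k1 := key2.nul _ hψ'
    refine Tendsto.congr (fun n => ?_) k1
    unfold J
    have hr : (1 / √(ev (t n))) / (1 / √(ev (s n))) = √(ev (s n)) / √(ev (t n)) := by
      have p1 := (Real.sqrt_pos.2 (ev_pos (t n))).ne'
      have p2 := (Real.sqrt_pos.2 (ev_pos (s n))).ne'
      field_simp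
    rw [hr, ← int4 (iJ n _ _ _ _) (iJ n _ _ _ _) (iJ n _ _ _ _) (iJ n _ _ _ _)]
    congr 1; funext z
    simp only [div_eq_mul_inv]
    ring

/-- **Result.** Let `f n`, `g n` be real eigenfunctions of the hyperbolic Laplacian on the upper
half plane with eigenvalues `ev (t n) → ∞`, `ev (s n) → ∞` (no relation of the two is assumed), both
quantum uniquely ergodic. Let `ψ` be a test function.

(1) `∫ ψ [f² g² + (|∇f|² |∇g|² - 2 ⟨∇f, ∇g⟩²) / (λ μ)] dμ → ∫ ψ dμ`, `λ`, `μ` the eigenvalues.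

(2) If `ψ ≥ 0` then for every `ε > 0`, for all large `n`,
`|∫ ψ f² g² dμ - ∫ ψ dμ| ≤ ∫ ψ |∇f|² |∇g|² / (λ μ) dμ + ε`.

(3) If `λ / μ` stays in a compact subset of `(0, ∞)`, the joint moments `J a b c d =
∫ ψ W_a(f) W_b(f) W_c(g) W_d(g) dμ` of the two local fields satisfy for all integers `a, b, c, d`
`J(a+1,b+1,c-1,d-1) + J(a-1,b-1,c+1,d+1) - 2 J(a,b,c,d) → (its value G for independent random
waves) * ∫ ψ dμ` and
`J(a+1,b,c,d) + J(a,b+1,c,d) + √(μ/λ) (J(a,b,c+1,d) + J(a,b,c,d+1)) → 0`. -/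
theorem result (t s : ℕ → ℝ) (ht : Tendsto t atTop atTop) (hs : Tendsto s atTop atTop)
    (f g : ℕ → ℂ → ℝ) (hf : ∀ n, Eig (t n) (f n)) (hg : ∀ n, Eig (s n) (g n))
    (hqf : QUE t f) (hqg : QUE s g) (ψ : ℂ → ℝ) (hψ : TF HH ψ) :
    Tendsto (fun n => II ψ (fun z => f n z ^ 2 * g n z ^ 2 + (gr (f n) (f n) z * gr (g n) (g n) z -
      2 * gr (f n) (g n) z ^ 2) / (ev (t n) * ev (s n)))) atTop
      (𝓝 (∫ z, ψ z / z.im ^ 2)) ∧
    ((∀ z, 0 ≤ ψ z) → ∀ ε > 0, ∀ᶠ n in atTop,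
      |II ψ (fun z => f n z ^ 2 * g n z ^ 2) - ∫ z, ψ z / z.im ^ 2| ≤
        II ψ (fun z => gr (f n) (f n) z * gr (g n) (g n) z / (ev (t n) * ev (s n))) + ε) ∧
    ∀ A : ℝ, (∀ n, ev (t n) ≤ A * ev (s n)) → (∀ n, ev (s n) ≤ A * ev (t n)) → ∀ a b c d : ℤ,
      Tendsto (fun n => J ψ (t n) (s n) (f n) (g n) (a + 1) (b + 1) (c - 1) (d - 1) +
        J ψ (t n) (s n) (f n) (g n) (a - 1) (b - 1) (c + 1) (d + 1) -
        2 * J ψ (t n) (s n) (f n) (g n) a b c d) atTop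
        (𝓝 ((G (a + 1) (b + 1) (c - 1) (d - 1) + G (a - 1) (b - 1) (c + 1) (d + 1) -
          2 * G a b c d) * ((∫ z, ψ z / z.im ^ 2 : ℝ) : ℂ))) ∧
      Tendsto (fun n => J ψ (t n) (s n) (f n) (g n) (a + 1) b c d +
        J ψ (t n) (s n) (f n) (g n) a (b + 1) c d + (√(ev (s n)) / √(ev (t n)) : ℝ) *
        (J ψ (t n) (s n) (f n) (g n) a b (c + 1) d + J ψ (t n) (s n) (f n) (g n) a b c (d + 1)))
        atTop (𝓝 0) := by
  have key := null ht hs hf hg hqf hqg hψ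
  refine ⟨key, fun h0 ε hε => ?_, fun A h1 h2 a b c d =>
    ladders ht hs hf hg hqf hqg hψ h1 h2 a b c d⟩
  filter_upwards [key.eventually (Metric.ball_mem_nhds _ hε)] with n hn
  rw [Real.dist_eq] at hn
  have p : 0 < ev (t n) * ev (s n) := mul_pos (ev_pos _) (ev_pos _)
  have c0 : ContinuousOn (fun z => f n z ^ 2 * g n z ^ 2) HH :=
    ((hf n).1.continuousOn.pow 2).mul ((hg n).1.continuousOn.pow 2)
  have c1 : ContinuousOn (fun z => (gr (f n) (f n) z * gr (g n) (g n) z -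
      2 * gr (f n) (g n) z ^ 2) / (ev (t n) * ev (s n))) HH :=
    (((gr_co (hf n) (hf n)).mul (gr_co (hg n) (hg n))).sub
      (continuousOn_const.mul ((gr_co (hf n) (hg n)).pow 2))).div_const _
  have c2 : ContinuousOn (fun z => gr (f n) (f n) z * gr (g n) (g n) z /
      (ev (t n) * ev (s n))) HH :=
    ((gr_co (hf n) (hf n)).mul (gr_co (hg n) (hg n))).div_const _
  have pt : ∀ z, |(gr (f n) (f n) z * gr (g n) (g n) z - 2 * gr (f n) (g n) z ^ 2) /
      (ev (t n) * ev (s n))| ≤ gr (f n) (f n) z * gr (g n) (g n) z / (ev (t n) * ev (s n)) := by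
    intro z
    rw [abs_div, abs_of_pos p]
    refine div_le_div_of_nonneg_right (abs_le.2 ⟨?_, ?_⟩) p.le
    · nlinarith [gr_cs (f n) (g n) z]
    · nlinarith [sq_nonneg (gr (f n) (g n) z)]
  have e1 : II ψ (fun z => f n z ^ 2 * g n z ^ 2 + (gr (f n) (f n) z * gr (g n) (g n) z -
      2 * gr (f n) (g n) z ^ 2) / (ev (t n) * ev (s n))) =
      II ψ (fun z => f n z ^ 2 * g n z ^ 2) + II ψ (fun z => (gr (f n) (f n) z *
        gr (g n) (g n) z - 2 * gr (f n) (g n) z ^ 2) / (ev (t n) * ev (s n))) := by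
    unfold II
    rw [← integral_add (II_int hψ c0) (II_int hψ c1)]
    congr 1; funext z; ring
  have e2 : II ψ (fun z => (gr (f n) (f n) z * gr (g n) (g n) z - 2 * gr (f n) (g n) z ^ 2) /
      (ev (t n) * ev (s n))) ≤ II ψ (fun z => gr (f n) (f n) z * gr (g n) (g n) z /
      (ev (t n) * ev (s n))) :=
    II_mono hψ h0 c1 c2 fun z => (le_abs_self _).trans (pt z)
  have e3 : II ψ (fun z => -(gr (f n) (f n) z * gr (g n) (g n) z /
      (ev (t n) * ev (s n)))) ≤ II ψ (fun z => (gr (f n) (f n) z * gr (g n) (g n) z -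
        2 * gr (f n) (g n) z ^ 2) / (ev (t n) * ev (s n))) :=
    II_mono hψ h0 c2.neg c1 fun z => neg_le_of_abs_le (pt z)
  have e4 : II ψ (fun z => -(gr (f n) (f n) z * gr (g n) (g n) z /
      (ev (t n) * ev (s n)))) = - II ψ (fun z => gr (f n) (f n) z * gr (g n) (g n) z /
      (ev (t n) * ev (s n))) := by
    unfold II
    rw [← integral_neg]
    congr 1; funext z; ring
  rw [e1] at hn
  rw [e4] at e3
  rw [abs_le]
  have := abs_lt.1 hn
  constructor <;> linarith [this.1, this.2]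

end Pool.Agent.Results.MP_a28cf0_nt.JointNullForms
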