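import Pool.Agent.R314.JN.Low4

/-!
# A lower bound for the joint fourth moment of two forms of equal frequency (MP_a28cf0_nt)

The plane is `ℂ`, with the upper half plane `HH` and `dμ = dx dy / y²`. `dx f z`, `dy f z` are the
partial derivatives `fderiv ℝ f z 1`, `fderiv ℝ f z I`; `TF U φ` says that `φ : ℂ → ℝ` is smooth
with compact support contained in `U`.

Proof idea. Let `W_k(f)` be the normalised frame derivatives of `f`. The null forms of the pair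
`(f, g)` (compensated compactness for the energy-momentum tensors) and the translation relations
determine all joint moments `∫ ψ W_a(f) W_b(f) W_c(g) W_d(g) dμ`, `a + b + c + d = 0`, up to one
even sequence of unknowns. The square of `Re ∑_{k<K} W_k(f) conj W_k(g)` and the product of
`∑_{k<K} (-1)^k |W_k(f)|²` and `∑_{k<K} (-1)^k |W_k(g)|²` have the same integral up to the excess of
`∫ ψ f² g²` and terms of relative size `1/K`. The first is nonnegative and the second is bounded by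
the Cauchy-Schwarz inequality and the exact formula for the fourth moments of one form.
-/

set_option autoImplicit false
open MeasureTheory Filter Topology Complex
open scoped ContDiff

namespace Pool.Agent.Results.MP_a28cf0_nt.LowerBoundEqualFrequencies

open Pool.Agent.W745.RW (TF dx dy)

/-- the open upper half plane -/
def HH : Set ℂ := {z | 0 < z.im}

/-- the eigenvalue `1/4 + t²` -/
noncomputable def ev (t : ℝ) : ℝ := 1 / 4 + t ^ 2

/-- `f` is a smooth real solution of `-y² (∂x² + ∂y²) f = (1/4 + t²) f` on the upper half plane -/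
def Eig (t : ℝ) (f : ℂ → ℝ) : Prop :=
  ContDiffOn ℝ ∞ f HH ∧ ∀ z ∈ HH, -(z.im ^ 2 * (dx (dx f) z + dy (dy f) z)) = ev t * f z

/-- the operator `f ↦ lam^{-1/2} y (∂x f - i ∂y f)` -/
noncomputable def RO (lam : ℝ) (f : ℂ → ℂ) (z : ℂ) : ℂ :=
  ((z.im / √lam : ℝ) : ℂ) * (dx f z - I * dy f z)

/-- quantum unique ergodicity in microlocal form: `∫ φ f (RO^k f) dμ → ∫ φ dμ` for `k = 0`, and
`→ 0` for `k ≥ 1` -/
def QUE (t : ℕ → ℝ) (f : ℕ → ℂ → ℝ) : Prop :=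
  ∀ φ, TF HH φ → ∀ k : ℕ, Tendsto (fun n => ∫ z, ((φ z / z.im ^ 2 : ℝ) : ℂ) *
    ((f n z : ℂ) * (RO (ev (t n)))^[k] (fun w => (f n w : ℂ)) z)) atTop
    (𝓝 (if k = 0 then ((∫ z, φ z / z.im ^ 2 : ℝ) : ℂ) else 0))

/-- the integral `∫ ψ F dμ` -/
noncomputable def II (ψ F : ℂ → ℝ) : ℝ := ∫ z, ψ z * F z / z.im ^ 2

/-- the excess `∫ ψ f⁴ dμ - 3 ∫ ψ dμ` of the fourth moment over its Gaussian value -/
noncomputable def ex (ψ f : ℂ → ℝ) : ℝ := II ψ (fun z => f z ^ 4) - 3 * II ψ (fun _ => 1)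

lemma ev_pos (t : ℝ) : 0 < ev t := by unfold ev; positivity

lemma HHo : IsOpen HH := isOpen_lt continuous_const continuous_im

lemma ev_top {t : ℕ → ℝ} (ht : Tendsto t atTop atTop) :
    Tendsto (fun n => ev (t n)) atTop atTop :=
  tendsto_atTop_add_const_left _ _ ((tendsto_pow_atTop two_ne_zero).comp ht)

lemma qs {t : ℕ → ℝ} (ht : Tendsto t atTop atTop) {f : ℕ → ℂ → ℝ}
    (hf : ∀ n, Eig (t n) (f n)) (hqe : QUE t f) :
    Pool.Agent.R314.JN.QS HH (fun n => ev (t n)) f := by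
  refine ⟨fun n => ev_pos (t n), ev_top ht, fun n => (hf n).1, fun n z hz => ?_, hqe⟩
  have h1 := (hf n).2 z hz
  show z.im ^ 2 * (dx (dx (f n)) z + dy (dy (f n)) z) + ev (t n) * f n z = 0
  linarith

lemma low {t s : ℕ → ℝ} (ht : Tendsto t atTop atTop) (hs : Tendsto s atTop atTop)
    {f g : ℕ → ℂ → ℝ} (hf : ∀ n, Eig (t n) (f n)) (hg : ∀ n, Eig (s n) (g n))
    (hqf : QUE t f) (hqg : QUE s g) (hr : Tendsto (fun n => ev (s n) / ev (t n)) atTop (𝓝 1))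
    {ψ : ℂ → ℝ} (hψ : TF HH ψ) (h0 : ∀ z, 0 ≤ ψ z) {ε : ℝ} (hε : 0 < ε) : ∀ᶠ n in atTop,
      II ψ (fun _ => 1) - 1 / 3 * √((ex ψ (f n) + ε) * (ex ψ (g n) + ε)) -
        ε * √((1 + II ψ (fun z => f n z ^ 4)) * (1 + II ψ (fun z => g n z ^ 4))) ≤
      II ψ (fun z => f n z ^ 2 * g n z ^ 2) := by
  have key := Pool.Agent.R314.JN.low (qs ht hf hqf) (qs hs hg hqg) HHo (fun z hz => hz) hψ h0 hr hε
  have e1 : ∫ z, Pool.Agent.R314.JN.wt ψ z = II ψ (fun _ => 1) := by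
    unfold Pool.Agent.R314.JN.wt II
    simp only [mul_one]
  have e2 : ∀ u : ℂ → ℝ, Pool.Agent.R314.JN.M4 ψ u = II ψ (fun z => u z ^ 4) := by
    intro u
    unfold Pool.Agent.R314.JN.M4 Pool.Agent.R314.JN.wt II
    congr 1; funext z; ring
  filter_upwards [key] with n hn
  rw [e1, e2, e2] at hn
  unfold Pool.Agent.R314.JN.NN at hn
  rw [e2, e2] at hn
  have e3 : ∫ z, Pool.Agent.R314.JN.wt ψ z * (f n z ^ 2 * g n z ^ 2) =
      II ψ (fun z => f n z ^ 2 * g n z ^ 2) := by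
    unfold Pool.Agent.R314.JN.wt II
    congr 1; funext z; ring
  rw [e3] at hn
  exact hn

/-- **Result.** Let `f n`, `g n` be real eigenfunctions of the hyperbolic Laplacian on the upper
half plane, both quantum uniquely ergodic, with eigenvalues `ev (t n), ev (s n) → ∞` whose ratio
tends to `1`. Let `ψ ≥ 0` be a test function.

(1) For every `ε > 0`, for all large `n`,
`∫ ψ f² g² dμ ≥ ∫ ψ dμ - (1/3) √((ex f + ε) (ex g + ε)) - ε √((1 + ∫ ψ f⁴ dμ) (1 + ∫ ψ g⁴ dμ))`,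
where `ex f = ∫ ψ f⁴ dμ - 3 ∫ ψ dμ`.

(2) If `∫ ψ f⁴ dμ → 3 ∫ ψ dμ` and the `∫ ψ g⁴ dμ` are bounded then `liminf ∫ ψ f² g² dμ ≥ ∫ ψ dμ`. -/
theorem result (t s : ℕ → ℝ) (ht : Tendsto t atTop atTop) (hs : Tendsto s atTop atTop)
    (f g : ℕ → ℂ → ℝ) (hf : ∀ n, Eig (t n) (f n)) (hg : ∀ n, Eig (s n) (g n))
    (hqf : QUE t f) (hqg : QUE s g) (hr : Tendsto (fun n => ev (s n) / ev (t n)) atTop (𝓝 1))
    (ψ : ℂ → ℝ) (hψ : TF HH ψ) (h0 : ∀ z, 0 ≤ ψ z) :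
    (∀ ε > 0, ∀ᶠ n in atTop,
      II ψ (fun _ => 1) - 1 / 3 * √((ex ψ (f n) + ε) * (ex ψ (g n) + ε)) -
        ε * √((1 + II ψ (fun z => f n z ^ 4)) * (1 + II ψ (fun z => g n z ^ 4))) ≤
      II ψ (fun z => f n z ^ 2 * g n z ^ 2)) ∧
    (Tendsto (fun n => II ψ (fun z => f n z ^ 4)) atTop (𝓝 (3 * II ψ (fun _ => 1))) →
      (∃ A : ℝ, ∀ᶠ n in atTop, II ψ (fun z => g n z ^ 4) ≤ A) →
      ∀ ε > 0, ∀ᶠ n in atTop, II ψ (fun _ => 1) - ε ≤ II ψ (fun z => f n z ^ 2 * g n z ^ 2)) := by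
  refine ⟨fun ε hε => low ht hs hf hg hqf hqg hr hψ h0 hε, ?_⟩
  rintro h4 ⟨A, hA⟩ ε hε
  set m : ℝ := II ψ (fun _ => 1) with hm
  have hpos : ∀ F : ℂ → ℝ, (∀ z, 0 ≤ F z) → 0 ≤ II ψ F := fun F hF =>
    integral_nonneg fun z => div_nonneg (mul_nonneg (h0 z) (hF z)) (sq_nonneg _)
  have hm0 : 0 ≤ m := hpos _ fun _ => zero_le_one
  -- choice of the small parameter
  obtain ⟨δ, hδ0, hδ1, hδ⟩ : ∃ δ : ℝ, 0 < δ ∧ δ < 1 ∧
      1 / 3 * √(2 * δ * (|A| + 1)) + δ * √((2 + 3 * m) * (1 + |A|)) < ε := by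
    have hc : Continuous (fun δ : ℝ => 1 / 3 * √(2 * δ * (|A| + 1)) +
        δ * √((2 + 3 * m) * (1 + |A|))) := by fun_prop
    have h1 := (hc.tendsto 0).eventually (gt_mem_nhds (show (1 / 3 * √(2 * 0 * (|A| + 1)) +
      0 * √((2 + 3 * m) * (1 + |A|))) < ε by simpa using hε))
    have h2 : ∀ᶠ δ : ℝ in 𝓝[>] 0, 0 < δ := eventually_mem_nhdsWithin
    have h3 : ∀ᶠ δ : ℝ in 𝓝[>] 0, δ < 1 :=
      eventually_nhdsWithin_of_eventually_nhds (gt_mem_nhds one_pos)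
    obtain ⟨δ, h4, h5, h6⟩ := ((h2.and (h3.and (eventually_nhdsWithin_of_eventually_nhds h1)))).exists
    exact ⟨δ, h4, h5, h6⟩
  filter_upwards [low ht hs hf hg hqf hqg hr hψ h0 hδ0, hA,
    h4.eventually (Metric.ball_mem_nhds _ hδ0)] with n h1 h2 h3
  rw [Real.dist_eq] at h3
  have h5 := abs_lt.1 h3
  have a1 : |A| ≥ A := le_abs_self A
  have a2 : 0 ≤ |A| := abs_nonneg A
  have f4 : 0 ≤ II ψ (fun z => f n z ^ 4) := hpos _ fun z => by positivity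
  have g4 : 0 ≤ II ψ (fun z => g n z ^ 4) := hpos _ fun z => by positivity
  have b1 : (ex ψ (f n) + δ) * (ex ψ (g n) + δ) ≤ 2 * δ * (|A| + 1) := by
    have c1 : 0 ≤ ex ψ (f n) + δ := by unfold ex; linarith [h5.1]
    have c2 : ex ψ (f n) + δ ≤ 2 * δ := by unfold ex; linarith [h5.2]
    have c3 : ex ψ (g n) + δ ≤ |A| + 1 := by unfold ex; linarith
    calc (ex ψ (f n) + δ) * (ex ψ (g n) + δ) ≤ (ex ψ (f n) + δ) * (|A| + 1) :=
          mul_le_mul_of_nonneg_left c3 c1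
      _ ≤ 2 * δ * (|A| + 1) := mul_le_mul_of_nonneg_right c2 (by linarith)
  have b2 : (1 + II ψ (fun z => f n z ^ 4)) * (1 + II ψ (fun z => g n z ^ 4)) ≤
      (2 + 3 * m) * (1 + |A|) :=
    mul_le_mul (by linarith [h5.2]) (by linarith) (by linarith) (by linarith)
  have b3 := Real.sqrt_le_sqrt b1
  have b4 := mul_le_mul_of_nonneg_left (Real.sqrt_le_sqrt b2) hδ0.le
  linarith

end Pool.Agent.Results.MP_a28cf0_nt.LowerBoundEqualFrequencies
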